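import Pool.Agent.H60.RF.Stmts

/-!
# Row GDB: a good matrix
-/

set_option autoImplicit false

open Finset Real

namespace Pool.RF

open Pool.Agent.H49.Ent Pool.Agent.H32.Dense Pool.STK Pool.KA Pool.GP Pool.KRN

lemma gdb_ls {m J K : ℕ} (F : Pool.KA.Fam m J) (b b' : Mat J K m) (s : Finset (Fin K))
    (h : ∀ i ∈ s, b' i = b i) : ls F (mq b') s = ls F (mq b) s := by
  funext ω i
  unfold ls
  by_cases hi : i ∈ s
  · rw [if_pos hi, if_pos hi]
    have e : r1 (mq b') i = r1 (mq b) i := by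
      funext l t
      unfold r1 mq
      rw [h i hi]
    rw [e]
  · rw [if_neg hi, if_neg hi]

lemma gdb_sum (hP : PRBStmt) (hF : FUBStmt) {m J N G K : ℕ} {g : ℕ → ℕ} (F : Pool.KA.Fam m J)
    (hg : Grid J N G g) (s : Finset (Fin K)) (B : Fin 3 → Fin K) (hB : Function.Injective B)
    (hBs : ∀ l, B l ∉ s) :
    ∑ b : Mat J K m, Ex F.p (ex F b N G g s B) ≤ (Fintype.card (Mat J K m) : ℝ) := by
  classical
  obtain ⟨c, hc⟩ : ∃ c : ℝ, c = cs 3 m G * ((N : ℝ) + 1) := ⟨_, rfl⟩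
  have hN : (0 : ℝ) ≤ N := Nat.cast_nonneg N
  have hc1 : 0 < c := by
    rw [hc]
    have := cs_pos 3 m G
    positivity
  have h1 : ∀ ω, 0 < F.p ω → ∑ b : Mat J K m,
      Real.exp (fm F.p (ls F (mq b) s) F.d J 3 g N ω -
        In F.p (ls F (mq b) s) F.d J (fun l => b (B l)) ω) ≤
      c * (Fintype.card (Mat J K m) : ℝ) := by
    intro ω hω
    refine hF (R := Fin m → Fin (2 ^ (J + 1))) B hB (fun b : Mat J K m =>
      Real.exp (fm F.p (ls F (mq b) s) F.d J 3 g N ω -
        In F.p (ls F (mq b) s) F.d J (fun l => b (B l)) ω)) c ?_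
    intro b
    have h2 := hP (k := 3) F.isLaw hg (ls F (mq b) s) F.d F.dir ω hω
    rw [← hc] at h2
    refine le_trans (le_of_eq (Finset.sum_congr rfl fun r _ => ?_)) h2
    have e1 : ls F (mq (Function.extend B r b)) s = ls F (mq b) s := by
      refine gdb_ls F b _ s fun i hi => ?_
      refine Function.extend_apply' _ _ _ ?_
      rintro ⟨l, rfl⟩
      exact hBs l hi
    have e2 : (fun l => Function.extend B r b (B l)) = r := by
      funext l
      exact hB.extend_apply _ _ _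
    simp only [e1, e2]
  have h3 : ∀ (b : Mat J K m) (ω : F.Ω), ex F b N G g s B ω ≤
      c⁻¹ * Real.exp (fm F.p (ls F (mq b) s) F.d J 3 g N ω -
        In F.p (ls F (mq b) s) F.d J (fun l => b (B l)) ω) := by
    intro b ω
    unfold ex
    rw [← hc]
    obtain ⟨z, hz⟩ : ∃ z : ℝ, z = fm F.p (ls F (mq b) s) F.d J 3 g N ω -
        In F.p (ls F (mq b) s) F.d J (fun l => b (B l)) ω := ⟨_, rfl⟩
    rw [← hz]
    have e : c⁻¹ * Real.exp z = Real.exp (z - Real.log c) := by
      rw [Real.exp_sub, Real.exp_log hc1, div_eq_inv_mul]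
    rw [e]
    refine max_le (Real.exp_pos _).le ?_
    have := Real.add_one_le_exp (z - Real.log c)
    linarith
  calc ∑ b : Mat J K m, Ex F.p (ex F b N G g s B)
      ≤ ∑ b : Mat J K m, Ex F.p (fun ω =>
        c⁻¹ * Real.exp (fm F.p (ls F (mq b) s) F.d J 3 g N ω -
        In F.p (ls F (mq b) s) F.d J (fun l => b (B l)) ω)) :=
        Finset.sum_le_sum fun b _ => Ex_mono F.isLaw.nonneg fun ω _ => h3 b ω
    _ = Ex F.p (fun ω => c⁻¹ * ∑ b : Mat J K m,
        Real.exp (fm F.p (ls F (mq b) s) F.d J 3 g N ω -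
        In F.p (ls F (mq b) s) F.d J (fun l => b (B l)) ω)) := by
        unfold Ex
        rw [Finset.sum_comm]
        refine Finset.sum_congr rfl fun ω _ => ?_
        dsimp only
        rw [← Finset.mul_sum, ← Finset.mul_sum]
    _ ≤ Ex F.p (fun _ => (Fintype.card (Mat J K m) : ℝ)) := by
        refine Ex_mono F.isLaw.nonneg fun ω hω => ?_
        rw [inv_mul_le_iff₀ hc1]
        exact h1 ω hω
    _ = (Fintype.card (Mat J K m) : ℝ) := Ex_const F.isLaw.sum_one _

theorem gdb (hP : PRBStmt) (hF : FUBStmt) : GDBStmt := by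
  classical
  intro m J N G K g F hg S ρ hρ hS
  have hnn : ∀ (b : Mat J K m) (s : Finset (Fin K)) (B : Fin 3 → Fin K),
      0 ≤ Ex F.p (ex F b N G g s B) := fun b s B =>
    Ex_nonneg F.isLaw.nonneg fun ω _ => le_max_left _ _
  obtain ⟨Φ, hΦ⟩ : ∃ Φ : Mat J K m → ℝ, Φ = fun b =>
      ∑ x : Finset (Fin K) × (Fin 3 → Fin K),
        if Function.Injective x.2 ∧ ∀ l, x.2 l ∉ x.1 then Ex F.p (ex F b N G g x.1 x.2) else 0 :=
    ⟨_, rfl⟩
  obtain ⟨Q, hQ⟩ : ∃ Q : ℝ, Q = (Fintype.card (Finset (Fin K) × (Fin 3 → Fin K)) : ℝ) := ⟨_, rfl⟩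
  have hQ0 : 0 ≤ Q := by rw [hQ]; exact Nat.cast_nonneg _
  have hM : (0 : ℝ) < (Fintype.card (Mat J K m) : ℝ) := by exact_mod_cast Fintype.card_pos
  have hSne : S.Nonempty := by
    rw [← Finset.card_pos]
    have : (0 : ℝ) < (S.card : ℝ) := lt_of_lt_of_le (by positivity) hS
    exact_mod_cast this
  have h0 : ∀ b, 0 ≤ Φ b := by
    intro b
    rw [hΦ]
    refine Finset.sum_nonneg fun x _ => ?_
    split_ifs
    · exact hnn _ _ _
    · exact le_refl _
  have h1 : ∑ b : Mat J K m, Φ b ≤ Q * (Fintype.card (Mat J K m) : ℝ) := by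
    rw [hΦ, Finset.sum_comm]
    have h2 : ∀ x ∈ (Finset.univ : Finset (Finset (Fin K) × (Fin 3 → Fin K))),
        ∑ b : Mat J K m, (if Function.Injective x.2 ∧ ∀ l, x.2 l ∉ x.1 then
          Ex F.p (ex F b N G g x.1 x.2) else 0) ≤ (Fintype.card (Mat J K m) : ℝ) := by
      intro x _
      by_cases h : Function.Injective x.2 ∧ ∀ l, x.2 l ∉ x.1
      · simp only [if_pos h]
        exact gdb_sum hP hF F hg x.1 x.2 h.1 h.2
      · simp only [if_neg h, Finset.sum_const_zero]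
        exact hM.le
    refine (Finset.sum_le_sum h2).trans (le_of_eq ?_)
    rw [Finset.sum_const, Finset.card_univ, nsmul_eq_mul, ← hQ]
  by_contra hcon
  push Not at hcon
  rw [← hQ] at hcon
  have h3 : ∀ b ∈ S, Q / ρ < Φ b := by
    intro b hb
    have h4 := hcon b hb
    unfold Good at h4
    push Not at h4
    obtain ⟨s, B, hB, hBs, h5⟩ := h4
    refine h5.trans_le ?_
    rw [hΦ]
    have h6 := Finset.single_le_sum (s := (Finset.univ : Finset (Finset (Fin K) × (Fin 3 → Fin K))))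
      (f := fun x => if Function.Injective x.2 ∧ ∀ l, x.2 l ∉ x.1 then
        Ex F.p (ex F b N G g x.1 x.2) else 0) (fun x _ => by
          split_ifs
          · exact hnn _ _ _
          · exact le_refl _) (Finset.mem_univ (s, B))
    dsimp only at h6
    rw [if_pos ⟨hB, hBs⟩] at h6
    exact h6
  have h7 : (S.card : ℝ) * (Q / ρ) < ∑ b ∈ S, Φ b := by
    rw [← nsmul_eq_mul, ← Finset.sum_const]
    exact Finset.sum_lt_sum_of_nonempty hSne h3
  have h8 : ∑ b ∈ S, Φ b ≤ ∑ b : Mat J K m, Φ b :=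
    Finset.sum_le_sum_of_subset_of_nonneg (Finset.subset_univ S) fun b _ _ => h0 b
  have h9 : Q * (Fintype.card (Mat J K m) : ℝ) ≤ (S.card : ℝ) * (Q / ρ) := by
    have : Q * (Fintype.card (Mat J K m) : ℝ) = ρ * (Fintype.card (Mat J K m) : ℝ) * (Q / ρ) := by
      field_simp
    rw [this]
    exact mul_le_mul_of_nonneg_right hS (div_nonneg hQ0 hρ.le)
  linarith

end Pool.RF
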